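import Pool.Agent.H247.SD.Stm

/-!
# SD BA: a dense orbit from the Baire category theorem (helper289 for helper247)
-/

set_option autoImplicit false

open scoped Manifold ContDiff Topology
open Filter Set Metric

universe u

namespace Pool.Agent.H289.SD

theorem main : Pool.Agent.H247.SD.S_BA.{u} := by
  intro X _ _ G hG C hC hne hinv hyp
  have hcomp : CompactSpace C := isCompact_iff_compactSpace.1 hC.isCompact
  have hneC : Nonempty C := hne.to_subtype
  let g : C → C := fun x => ⟨G x, hinv x x.2⟩
  have hg : Continuous g := (hG.comp continuous_subtype_val).subtype_mk _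
  have hit : ∀ (k : ℕ) (x : C), ((g^[k] x : C) : X) = G^[k] (x : X) := by
    intro k
    induction k with
    | zero => intro x; rfl
    | succ k ih =>
      intro x
      rw [Function.iterate_succ_apply', Function.iterate_succ_apply', ← ih x]
  have hdense : Dense (⋂ V ∈ TopologicalSpace.countableBasis C, ⋃ k : ℕ, (g^[k]) ⁻¹' V) := by
    refine dense_biInter_of_isOpen (fun V hV => ?_) (TopologicalSpace.countable_countableBasis C)
      (fun V hV => ?_)
    · exact isOpen_iUnion fun k =>
        (TopologicalSpace.isOpen_of_mem_countableBasis hV).preimage (hg.iterate k)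
    · rw [Metric.dense_iff]
      intro a r hr
      obtain ⟨b, hb⟩ := TopologicalSpace.nonempty_of_mem_countableBasis hV
      obtain ⟨ε, hε, hε2⟩ := Metric.isOpen_iff.1
        (TopologicalSpace.isOpen_of_mem_countableBasis hV) b hb
      obtain ⟨z, hz, k, h1, h2⟩ := hyp a a.2 b b.2 (min r ε) (lt_min hr hε)
      refine ⟨⟨z, hz⟩, ?_, ?_⟩
      · rw [Metric.mem_ball, Subtype.dist_eq]
        exact lt_of_lt_of_le h1 (min_le_left _ _)
      · rw [mem_iUnion]
        refine ⟨k, hε2 ?_⟩
        rw [Metric.mem_ball, Subtype.dist_eq, hit]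
        exact lt_of_lt_of_le h2 (min_le_right _ _)
  obtain ⟨x, hx⟩ := hdense.nonempty
  refine ⟨x, x.2, fun c hc => ?_⟩
  rw [Metric.mem_closure_iff]
  intro ε hε
  obtain ⟨V, hV, hcV, hVs⟩ := (TopologicalSpace.isBasis_countableBasis C).exists_subset_of_mem_open
    (Metric.mem_ball_self hε : (⟨c, hc⟩ : C) ∈ Metric.ball (⟨c, hc⟩ : C) ε) Metric.isOpen_ball
  obtain ⟨k, hk⟩ := mem_iUnion.1 (mem_iInter₂.1 hx V hV)
  have h1 := hVs hk
  rw [Metric.mem_ball, Subtype.dist_eq, hit, dist_comm] at h1
  exact ⟨_, mem_range_self k, h1⟩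

end Pool.Agent.H289.SD
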